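import Pool.Agent.Helper96.CT.Stmts2

/-! Row KL of sheet CT: a tree in a clique with one more edge. -/

set_option autoImplicit false

namespace Pool.Agent.Helper70.CT

open SimpleGraph Pool.Agent.Helper96.CT

theorem st_KL : ST_KL := by
  classical
  intro W V _ T F K hT hW hK hcl h hh v hv hhv
  have : Nontrivial W := Fintype.one_lt_card_iff_nontrivial.1 (by omega)
  obtain ⟨l, hl⟩ := hT.exists_vert_degree_one_of_nontrivial
  rw [SimpleGraph.degree_eq_one_iff_existsUnique_adj] at hl
  obtain ⟨a, ha, hau⟩ := hl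
  have hal : a ≠ l := ha.ne'
  have hcard : Fintype.card {w : W // w ≠ l} = Fintype.card {x : V // x ∈ K} := by
    rw [Fintype.card_coe, hK, Fintype.card_subtype_compl, Fintype.card_subtype_eq]
  obtain ⟨e0⟩ : Nonempty ({w : W // w ≠ l} ≃ {x : V // x ∈ K}) :=
    ⟨Fintype.equivOfCardEq hcard⟩
  obtain ⟨e, he⟩ : ∃ e : {w : W // w ≠ l} ≃ {x : V // x ∈ K}, e ⟨a, hal⟩ = ⟨h, hh⟩ :=
    ⟨e0.trans (Equiv.swap (e0 ⟨a, hal⟩) ⟨h, hh⟩), by simp⟩
  obtain ⟨f, hfl, hfn⟩ : ∃ f : W → V, f l = v ∧ ∀ (w : W) (hw : w ≠ l), f w = e ⟨w, hw⟩ :=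
    ⟨fun w => if hw : w = l then v else e ⟨w, hw⟩, by simp, fun w hw => by simp [hw]⟩
  have hfK : ∀ w, w ≠ l → f w ∈ K := by
    intro w hw
    rw [hfn w hw]
    exact (e ⟨w, hw⟩).2
  have hinj : Function.Injective f := by
    intro u w huw
    by_cases hu : u = l
    · by_cases hw : w = l
      · rw [hu, hw]
      · exfalso
        apply hv
        rw [← hfl, ← hu, huw]
        exact hfK w hw
    · by_cases hw : w = l
      · exfalso
        apply hv
        rw [← hfl, ← hw, ← huw]
        exact hfK u hu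
      · rw [hfn u hu, hfn w hw] at huw
        have h1 := e.injective (Subtype.ext huw)
        exact congrArg Subtype.val h1
  have hfa : f a = h := by
    rw [hfn a hal, he]
  have hadj : ∀ u w, T.Adj u w → F.Adj (f u) (f w) := by
    intro u w huw
    by_cases hu : u = l
    · have hw : w = a := hau w (hu ▸ huw)
      rw [hu, hw, hfl, hfa]
      exact hhv.symm
    · by_cases hw : w = l
      · have hu' : u = a := hau u (hw ▸ huw.symm)
        rw [hw, hu', hfl, hfa]
        exact hhv
      · exact hcl _ (hfK u hu) _ (hfK w hw) fun h1 => huw.ne (hinj h1)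
  exact ⟨⟨⟨f, fun {u w} huw => hadj u w huw⟩, hinj⟩⟩

end Pool.Agent.Helper70.CT
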